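import Pool.Agent.Helper30_Simp2.Stmts
import Pool.Agent.Helper39_Simp.Weights
import Pool.Agent.Helper39_Simp.Ytt

/-!
# SIMP2, module CLS: elimination of a variable which occurs in only one monomial
-/

set_option autoImplicit false
set_option linter.unusedVariables false
set_option linter.unusedSectionVars false

namespace Pool.Agent.Helper30_Simp2.H63

open PowerSeries Finset Pool.Agent.Helper6_Mono Pool.Agent.Helper30_Simp
open Pool.Agent.Helper30_Simp.H39

variable {k : Type} [Field k] {σ : Type} [Fintype σ] {W : Type} [AddCommGroup W]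

/-! ### Solving for a variable -/

/-- the cofactor of the variable `j` in a monomial -/
noncomputable def cof {S : Type} [CommRing S] [Algebra k S] (A : σ →₀ ℕ) (a : k) (j : σ)
    (x : σ → S) : S := by
  classical
  exact algebraMap k S a * ∏ i ∈ A.support.erase j, x i ^ A i

theorem aeval_mon {S : Type} [CommRing S] [Algebra k S] {A : σ →₀ ℕ} {j : σ} (hA : A j = 1) (a : k)
    (x : σ → S) : MvPolynomial.aeval x (MvPolynomial.monomial A a) = x j * cof A a j x := by
  classical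
  unfold cof
  have hj : j ∈ A.support := by
    rw [Finsupp.mem_support_iff, hA]
    exact one_ne_zero
  rw [MvPolynomial.aeval_monomial, Finsupp.prod, ← Finset.mul_prod_erase _ _ hj, hA, pow_one]
  ring

theorem cof_congr {S : Type} [CommRing S] [Algebra k S] (A : σ →₀ ℕ) (a : k) (j : σ)
    {x y : σ → S} (h : ∀ l, l ≠ j → x l = y l) : cof A a j x = cof A a j y := by
  classical
  unfold cof
  congr 1
  refine Finset.prod_congr rfl fun l hl => ?_
  rw [h l (Finset.ne_of_mem_erase hl)]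

theorem cof_unit {S : Type} [CommRing S] [Algebra k S] {A : σ →₀ ℕ} {a : k} (ha : a ≠ 0) {j : σ}
    {x : σ → S} (h : ∀ l, l ≠ j → A l ≠ 0 → IsUnit (x l)) : IsUnit (cof A a j x) := by
  classical
  unfold cof
  refine ((IsUnit.mk0 a ha).map (algebraMap k S)).mul ?_
  refine (IsUnit.prod_iff).2 fun l hl => ?_
  exact (h l (Finset.ne_of_mem_erase hl)
    (Finsupp.mem_support_iff.1 (Finset.mem_of_mem_erase hl))).pow _

theorem elim_iso {g g' : MvPolynomial σ k} (V' : TS W g') (V : TS W g) {A : σ →₀ ℕ} {a : k}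
    {j : σ} (ha : a ≠ 0) (hg' : g' = g + MvPolynomial.monomial A a) (hAj : A j = 1)
    (hgj : ∀ α ∈ g.support, α j = 0) (hjU : j ∈ V'.U) (hjJ : j ∉ V'.J)
    (hAU : ∀ i, A i ≠ 0 → i ∈ V'.U) (hν : ∀ l, V.ν l = V'.ν l)
    (hU : ∀ l, l ∈ V.U ↔ l ∈ V'.U ∧ l ≠ j) (hJ : V.J = V'.J)
    (e : (S : Type) → [CommRing S] → [Algebra k S] → S)
    (hP' : ∀ {S S' : Type} [CommRing S] [Algebra k S] [CommRing S'] [Algebra k S']
      (φ : S →ₐ[k] S') (c : Chr W S') (s : S), s = e S → chr c V'.μ * φ s = e S')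
    (hP : ∀ {S S' : Type} [CommRing S] [Algebra k S] [CommRing S'] [Algebra k S']
      (φ : S →ₐ[k] S') (c : Chr W S') (s : S), IsUnit (e S - s) →
        IsUnit (e S' - chr c V.μ * φ s)) :
    OIso (TQ V' (fun S _ _ s => s = e S) hP') (TQ V (fun S _ _ s => IsUnit (e S - s)) hP) := by
  classical
  have hae : ∀ {S : Type} [CommRing S] [Algebra k S] (x : σ → S) (b : S),
      MvPolynomial.aeval (fun l => if l = j then b else x l) g = MvPolynomial.aeval x g := by
    intro S _ _ x b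
    refine aeval_congr_supp fun α hα l hl => ?_
    rw [if_neg]
    rintro rfl
    exact hl (hgj α hα)
  have hg2 : ∀ {S : Type} [CommRing S] [Algebra k S] (x : σ → S),
      MvPolynomial.aeval x g' = MvPolynomial.aeval x g + x j * cof A a j x := by
    intro S _ _ x
    rw [hg', map_add, aeval_mon hAj]
  refine OIso.ofBij (fun S _ _ x => ⟨fun l => if l = j then 0 else x.1 l, fun l => ⟨fun h => ?_,
    fun h => ?_⟩, ?_⟩) ?_ ?_ ?_
  · rw [hU] at h
    show IsUnit (if l = j then 0 else x.1 l)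
    rw [if_neg h.2]
    exact (x.2.1 l).1 h.1
  · show (if l = j then 0 else x.1 l) = 0
    split_ifs with hl
    · rfl
    · rw [hU] at h
      exact (x.2.1 l).2 fun h' => h ⟨h', hl⟩
  · show IsUnit (e S - MvPolynomial.aeval (fun l => if l = j then 0 else x.1 l) g)
    rw [hae]
    have h1 : MvPolynomial.aeval x.1 g' = e S := x.2.2
    rw [hg2] at h1
    have h2 : e S - MvPolynomial.aeval x.1 g = x.1 j * cof A a j x.1 := by
      rw [← h1]
      ring
    rw [h2]
    exact ((x.2.1 j).1 hjU).mul (cof_unit ha fun l _ hl => (x.2.1 l).1 (hAU l hl))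
  · intro S S' _ _ _ _ φ c x
    refine Subtype.ext (funext fun l => ?_)
    show (if l = j then 0 else chr c (V'.ν l) * φ (x.1 l))
      = chr c (V.ν l) * φ (if l = j then 0 else x.1 l)
    split_ifs with hl
    · rw [map_zero, mul_zero]
    · rw [hν]
  · intro S _ _
    constructor
    · intro x y hxy
      have h1 : ∀ l, l ≠ j → x.1 l = y.1 l := by
        intro l hl
        have h2 := congrArg (fun z => z.1 l) hxy
        change (if l = j then 0 else x.1 l) = (if l = j then 0 else y.1 l) at h2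
        rwa [if_neg hl, if_neg hl] at h2
      have h2 : MvPolynomial.aeval x.1 g = MvPolynomial.aeval y.1 g := by
        refine aeval_congr_supp fun α hα l hl => h1 l ?_
        rintro rfl
        exact hl (hgj α hα)
      have h3 : MvPolynomial.aeval x.1 g' = e S := x.2.2
      have h4 : MvPolynomial.aeval y.1 g' = e S := y.2.2
      rw [hg2] at h3 h4
      rw [← h4, h2, cof_congr A a j h1] at h3
      have h5 : IsUnit (cof A a j y.1) := cof_unit ha fun l _ hl => (y.2.1 l).1 (hAU l hl)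
      have h6 : x.1 j = y.1 j := h5.mul_right_cancel (add_left_cancel h3)
      refine Subtype.ext (funext fun l => ?_)
      by_cases hl : l = j
      · rw [hl, h6]
      · exact h1 l hl
    · intro y
      have h5 : IsUnit (cof A a j y.1) := cof_unit ha fun l hl hl' =>
        (y.2.1 l).1 ((hU l).2 ⟨hAU l hl', hl⟩)
      have h6 : IsUnit (e S - MvPolynomial.aeval y.1 g) := y.2.2
      obtain ⟨m, hm⟩ := h5
      refine ⟨⟨fun l => if l = j then (e S - MvPolynomial.aeval y.1 g) * (m⁻¹ : Sˣ) else y.1 l,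
        fun l => ⟨fun h => ?_, fun h => ?_⟩, ?_⟩, ?_⟩
      · show IsUnit (if l = j then (e S - MvPolynomial.aeval y.1 g) * (m⁻¹ : Sˣ) else y.1 l)
        split_ifs with hl
        · exact h6.mul (Units.isUnit _)
        · exact (y.2.1 l).1 ((hU l).2 ⟨h, hl⟩)
      · show (if l = j then (e S - MvPolynomial.aeval y.1 g) * (m⁻¹ : Sˣ) else y.1 l) = 0
        rw [if_neg (by rintro rfl; exact h hjU)]
        exact (y.2.1 l).2 fun h' => h ((hU l).1 h').1
      · show MvPolynomial.aeval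
          (fun l => if l = j then (e S - MvPolynomial.aeval y.1 g) * (m⁻¹ : Sˣ) else y.1 l) g'
          = e S
        rw [hg2, hae, if_pos rfl, cof_congr A a j (y := y.1) (fun l hl => if_neg hl), ← hm,
          mul_assoc, Units.inv_mul, mul_one]
        ring
      · refine Subtype.ext (funext fun l => ?_)
        show (if l = j then 0 else if l = j then (e S - MvPolynomial.aeval y.1 g) * (m⁻¹ : Sˣ)
          else y.1 l) = y.1 l
        split_ifs with hl
        · rw [hl]
          exact ((y.2.1 j).2 fun h' => ((hU j).1 h').2 rfl).symm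
        · rfl
  · intro S _ _ x b
    show (if b ∈ V.J then (if b = j then 0 else x.1 b) else 0) = if b ∈ V'.J then x.1 b else 0
    rw [hJ]
    split_ifs with h1 h2
    · rw [h2] at h1
      exact absurd h1 hjJ
    · rfl
    · rfl

/-! ### The torus and its decomposition -/

section inv

variable {R : Type 1} [CommRing R] {L : Rˣ} {g : MvPolynomial σ k}

theorem cut_e (χ : SInv k (fun _ : σ => (0 : QZ)) L) (V : TS QZ g) (hμ : V.μ = 0)
    (e : (S : Type) → [CommRing S] → [Algebra k S] → S)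
    (he : ∀ {S S' : Type} [CommRing S] [Algebra k S] [CommRing S'] [Algebra k S']
      (φ : S →ₐ[k] S'), φ (e S) = e S')
    (hT : ∀ {S S' : Type} [CommRing S] [Algebra k S] [CommRing S'] [Algebra k S']
      (φ : S →ₐ[k] S') (c : Chr QZ S') (s : S), True → True)
    (hft : FT (TQ V (fun S _ _ s => True) hT).F)
    (hP' : ∀ {S S' : Type} [CommRing S] [Algebra k S] [CommRing S'] [Algebra k S']
      (φ : S →ₐ[k] S') (c : Chr QZ S') (s : S), s = e S → chr c V.μ * φ s = e S')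
    (hP : ∀ {S S' : Type} [CommRing S] [Algebra k S] [CommRing S'] [Algebra k S']
      (φ : S →ₐ[k] S') (c : Chr QZ S') (s : S), IsUnit (e S - s) →
        IsUnit (e S' - chr c V.μ * φ s)) :
    χ.χ (TQ V (fun S _ _ s => True) hT) = χ.χ (TQ V (fun S _ _ s => s = e S) hP')
      + χ.χ (TQ V (fun S _ _ s => IsUnit (e S - s)) hP) := by
  let h : NF (TQ V (fun S _ _ s => True) hT).F 0 :=
    ⟨fun {S} _ _ x => e S - MvPolynomial.aeval x.1 g, fun {S S'} _ _ _ _ φ c x => by
      show e S' - MvPolynomial.aeval (fun i => chr c (V.ν i) * φ (x.1 i)) g = _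
      rw [aeval_twist V, hμ, chr_zero, map_sub, he, one_mul, one_mul]⟩
  rw [χ.scissor hft h]
  congr 1
  · refine χ.iso (FT.zero hft h) (OIso.mk' (fun S _ _ x => ⟨x.1.1, x.1.2.1, ?_⟩)
      (fun S _ _ x => ⟨⟨x.1, x.2.1, trivial⟩, ?_⟩) (fun S _ _ x => rfl) (fun S _ _ x => rfl)
      (fun φ c x => rfl) (fun S _ _ x b => rfl))
    · have h1 : e S - MvPolynomial.aeval x.1.1 g = 0 := x.2
      exact (sub_eq_zero.1 h1).symm
    · have h1 : MvPolynomial.aeval x.1 g = e S := x.2.2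
      show e S - MvPolynomial.aeval x.1 g = 0
      rw [h1, sub_self]
  · exact χ.iso (FT.unit' hft h) (OIso.mk' (fun S _ _ x => ⟨x.1.1, x.1.2.1, x.2⟩)
      (fun S _ _ x => ⟨⟨x.1, x.2.1, trivial⟩, x.2.2⟩) (fun S _ _ x => rfl) (fun S _ _ x => rfl)
      (fun φ c x => rfl) (fun S _ _ x b => rfl))

/-- tori with the same weights have the same class -/
theorem tq_same (χ : SInv k (fun _ : σ => (0 : QZ)) L) (V V' : TS QZ g) (hU : V'.U = V.U)
    (hJ : V'.J = V.J) (hν : ∀ i ∈ V.U, V.ν i = V'.ν i)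
    (P : (S : Type) → [CommRing S] → [Algebra k S] → S → Prop)
    (hP : ∀ {S S' : Type} [CommRing S] [Algebra k S] [CommRing S'] [Algebra k S']
      (φ : S →ₐ[k] S') (c : Chr QZ S') (s : S), P S s → P S' (chr c V.μ * φ s))
    (hP' : ∀ {S S' : Type} [CommRing S] [Algebra k S] [CommRing S'] [Algebra k S']
      (φ : S →ₐ[k] S') (c : Chr QZ S') (s : S), P S s → P S' (chr c V'.μ * φ s))
    (hft : FT (TQ V P hP).F) : χ.χ (TQ V P hP) = χ.χ (TQ V' P hP') := by
  have h1 := tq_map V (AddMonoidHom.id QZ) V rfl rfl (fun i _ => rfl) P hP hP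
  have h2 := tq_map V (AddMonoidHom.id QZ) V' hU hJ hν P hP hP'
  exact χ.iso hft (h1.symm.trans h2)

theorem part_empty (f : MvPolynomial σ k) : part f ∅ = 0 := by
  unfold part
  exact Finset.sum_empty

/-- the torus with trivial equation -/
@[reducible] noncomputable def VT (f : MvPolynomial σ k) (V : TS QZ g) : TS QZ (part f ∅) where
  ν := V.ν
  μ := 0
  hg α hα := by
    rw [part_empty, MvPolynomial.support_zero] at hα
    exact absurd hα (Finset.notMem_empty α)
  U := V.U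
  J := V.J
  hJ := V.hJ

theorem torus_iso (f : MvPolynomial σ k) (V : TS QZ g)
    (hT : ∀ {S S' : Type} [CommRing S] [Algebra k S] [CommRing S'] [Algebra k S']
      (φ : S →ₐ[k] S') (c : Chr QZ S') (s : S), True → True) :
    OIso (TQ V (fun S _ _ s => True) hT) (TT0 (VT f V)) := by
  refine OIso.mk' (fun S _ _ x => ⟨x.1, x.2.1, ?_⟩) (fun S _ _ x => ⟨x.1, x.2.1, trivial⟩)
    (fun S _ _ x => rfl) (fun S _ _ x => rfl) (fun φ c x => rfl) (fun S _ _ x b => rfl)
  show MvPolynomial.aeval x.1 (part f ∅) = 0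
  rw [part_empty, map_zero]

theorem torus_cl (hFT : FTStmt) (hs : SplitStmt) (χ : SInv k (fun _ : σ => (0 : QZ)) L)
    (f : MvPolynomial σ k) (J : Finset σ) (V : TS QZ g) (hJ : V.J = J) (hsub : J ⊆ V.U)
    (hT : ∀ {S S' : Type} [CommRing S] [Algebra k S] [CommRing S'] [Algebra k S']
      (φ : S →ₐ[k] S') (c : Chr QZ S') (s : S), True → True) (T : Finset σ)
    (hTU : ∀ i, i ∈ T ↔ i ∈ V.U ∧ i ∉ J) :
    FT (TQ V (fun S _ _ s => True) hT).F ∧ χ.χ (TQ V (fun S _ _ s => True) hT)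
      = ((L : R) - 1) ^ T.card * χ.χ (TT0 (V0 f ∅ J)) := by
  classical
  have h1 : FT (TT0 (VT f V)).F := (hFT k σ QZ).1 _ _
  have hft : FT (TQ V (fun S _ _ s => True) hT).F := by
    obtain ⟨e, -⟩ := torus_iso f V hT
    exact FT.of_equiv e h1
  refine ⟨hft, ?_⟩
  rw [χ.iso hft (torus_iso f V hT), (split_all hs χ (VT f V) T fun i hi => ?_).1]
  · congr 1
    refine tq_same χ (TS.rem (VT f V) T) (V0 f ∅ J) ?_ hJ.symm (fun i hi => ?_)
      (fun S _ _ s => s = 0) (fun φ c s h => hP0 _ φ c s h) (fun φ c s h => hP0 _ φ c s h)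
      ((hFT k σ QZ).1 _ _)
    · ext l
      rw [TS.mem_rem, hTU]
      show l ∈ univ \ freeV ∅ J ↔ l ∈ V.U ∧ _
      rw [Finset.mem_sdiff, mem_freeV]
      constructor
      · rintro ⟨-, h⟩
        have h' : l ∈ J := by
          by_contra h''
          exact h ⟨h'', fun α hα => absurd hα (Finset.notMem_empty α)⟩
        exact ⟨hsub h', fun h2 => h2.2 h'⟩
      · rintro ⟨h2, h3⟩
        refine ⟨Finset.mem_univ l, fun h4 => h3 ⟨h2, h4.1⟩⟩
    · rw [TS.mem_rem, hTU] at hi
      have h' : i ∈ J := by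
        by_contra h''
        exact hi.2 ⟨hi.1, h''⟩
      exact V.hJ i (hJ ▸ h')
  · rw [hTU] at hi
    refine ⟨hi.1, fun h => hi.2 (hJ ▸ h), fun α hα => ?_⟩
    rw [part_empty, MvPolynomial.support_zero] at hα
    exact absurd hα (Finset.notMem_empty α)

theorem part_insert (f : MvPolynomial σ k) {I I' : Finset (σ →₀ ℕ)} {A : σ →₀ ℕ} (hA : A ∉ I)
    (hI' : ∀ β, β ∈ I' ↔ β = A ∨ β ∈ I) :
    part f I' = part f I + MvPolynomial.monomial A (MvPolynomial.coeff A f) := by
  classical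
  have : I' = insert A I := by
    ext β
    rw [hI', Finset.mem_insert]
  unfold part
  rw [this, Finset.sum_insert hA, add_comm]

theorem elim_cl (hFT : FTStmt) (hs : SplitStmt) (χ : SInv k (fun _ : σ => (0 : QZ)) L)
    (f : MvPolynomial σ k) {I I' : Finset (σ →₀ ℕ)} {J : Finset σ} {A : σ →₀ ℕ} {j : σ}
    (hv : Val f.support I J A j) (hI' : ∀ β, β ∈ I' ↔ β = A ∨ β ∈ I)
    (V' : TS QZ (part f I')) (hU' : ∀ i, i ∈ V'.U ↔ i ∉ freeV I' J) (hJ' : V'.J = J)
    (V : TS QZ (part f I)) (hU : ∀ i, i ∈ V.U ↔ i ∉ freeV I J) (hJ : V.J = J)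
    (hν : ∀ i ∈ V.U, V.ν i = V'.ν i) (hμ' : V'.μ = 0) (hμ : V.μ = 0)
    (e : (S : Type) → [CommRing S] → [Algebra k S] → S)
    (he : ∀ {S S' : Type} [CommRing S] [Algebra k S] [CommRing S'] [Algebra k S']
      (φ : S →ₐ[k] S'), φ (e S) = e S')
    (hP : ∀ (V : TS QZ (part f I)), V.μ = 0 → ∀ {S S' : Type} [CommRing S] [Algebra k S]
      [CommRing S'] [Algebra k S']
      (φ : S →ₐ[k] S') (c : Chr QZ S') (s : S), s = e S → chr c V.μ * φ s = e S')
    (hP' : ∀ {S S' : Type} [CommRing S] [Algebra k S] [CommRing S'] [Algebra k S']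
      (φ : S →ₐ[k] S') (c : Chr QZ S') (s : S), s = e S → chr c V'.μ * φ s = e S')
    (hft : ∀ (V : TS QZ (part f I)) (hμ : V.μ = 0),
      FT (TQ V (fun S _ _ s => s = e S) (hP V hμ)).F)
    (hft' : FT (TQ V' (fun S _ _ s => s = e S) hP').F)
    (hsp : ∀ (V : TS QZ (part f I)) (hμ : V.μ = 0) (T : Finset σ),
      (∀ i ∈ T, i ∈ V.U ∧ i ∉ V.J ∧ ∀ α ∈ (part f I).support, α i = 0) →
      χ.χ (TQ V (fun S _ _ s => s = e S) (hP V hμ)) = ((L : R) - 1) ^ T.card *
        χ.χ (TQ (TS.rem V T) (fun S _ _ s => s = e S) (hP (TS.rem V T) hμ))) :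
    χ.χ (TQ V' (fun S _ _ s => s = e S) hP')
      = ((L : R) - 1) ^ (dd I' J - 1) * χ.χ (TT0 (V0 f ∅ J))
        - ((L : R) - 1) ^ (dd I' J - 1 - dd I J)
          * χ.χ (TQ V (fun S _ _ s => s = e S) (hP V hμ)) := by
  classical
  obtain ⟨hIM, hAM, hAI, hjJ, hAj, hIj⟩ := hv
  have hg' := part_insert f hAI hI'
  have ha : MvPolynomial.coeff A f ≠ 0 := MvPolynomial.mem_support_iff.1 hAM
  have hgj : ∀ α ∈ (part f I).support, α j = 0 := fun α hα => hIj α (mem_of_mem_part_support hα)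
  have hjU : j ∈ V'.U := by
    rw [hU', mem_freeV]
    rintro ⟨-, h2⟩
    have := h2 A ((hI' A).2 (Or.inl rfl))
    omega
  -- the space of parameters
  let V₁ : TS QZ (part f I) :=
    { ν := V'.ν
      μ := 0
      hg := fun α hα => by
        have h1 : α ∈ (part f I').support := by
          have h2 : α ∈ I := mem_of_mem_part_support hα
          rw [MvPolynomial.mem_support_iff] at hα ⊢
          rw [hg', MvPolynomial.coeff_add, MvPolynomial.coeff_monomial, if_neg, add_zero]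
          · exact hα
          · rintro rfl
            exact hAI h2
        rw [V'.hg α h1, hμ']
      U := V'.U.erase j
      J := V'.J
      hJ := V'.hJ }
  have hcl : ∀ {S S' : Type} [CommRing S] [Algebra k S] [CommRing S'] [Algebra k S']
      (φ : S →ₐ[k] S') (c : Chr QZ S') (s : S), s = e S → chr c V₁.μ * φ s = e S' :=
    fun φ c s h => hP V₁ rfl φ c s h
  have hPu : ∀ {S S' : Type} [CommRing S] [Algebra k S] [CommRing S'] [Algebra k S']
      (φ : S →ₐ[k] S') (c : Chr QZ S') (s : S), IsUnit (e S - s) →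
        IsUnit (e S' - chr c V₁.μ * φ s) := by
    intro S S' _ _ _ _ φ c s hs'
    have h1 : e S' - chr c V₁.μ * φ s = φ (e S - s) := by
      rw [show V₁.μ = 0 from rfl, chr_zero, one_mul, map_sub, he]
    rw [h1]
    exact hs'.map φ
  have h1 := elim_iso V' V₁ ha hg' hAj hgj hjU (by rw [hJ']; exact hjJ) (fun i hi => by
      rw [hU', mem_freeV]
      rintro ⟨-, h2⟩
      exact hi (h2 A ((hI' A).2 (Or.inl rfl)))) (fun l => rfl) (fun l => by
      show l ∈ V'.U.erase j ↔ _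
      rw [Finset.mem_erase]
      tauto) rfl e hP' hPu
  rw [χ.iso hft' h1]
  obtain ⟨T, hTdef⟩ : ∃ T : Finset σ, T = univ.filter fun i => i ∉ J ∧ ∃ α ∈ I', α i ≠ 0 :=
    ⟨_, rfl⟩
  have hTm : ∀ i, i ∈ T ↔ i ∉ J ∧ ∃ α ∈ I', α i ≠ 0 := by
    intro i
    rw [hTdef, Finset.mem_filter]
    simp
  have hTc : T.card = dd I' J := by
    rw [hTdef]
    unfold dd
    congr
  have hjT : j ∈ T := (hTm j).2 ⟨hjJ, A, (hI' A).2 (Or.inl rfl), by omega⟩
  have hU1 : ∀ i, i ∈ V₁.U ↔ i ≠ j ∧ (i ∈ J ∨ ∃ α ∈ I', α i ≠ 0) := by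
    intro i
    show i ∈ V'.U.erase j ↔ _
    rw [Finset.mem_erase, hU', mem_freeV]
    push Not
    constructor
    · rintro ⟨h2, h3⟩
      refine ⟨h2, ?_⟩
      by_cases h4 : i ∈ J
      · exact Or.inl h4
      · exact Or.inr (h3 h4)
    · rintro ⟨h2, h3⟩
      refine ⟨h2, fun h4 => ?_⟩
      rcases h3 with h3 | h3
      · exact absurd h3 h4
      · exact h3
  obtain ⟨hftT, htor⟩ := torus_cl hFT hs χ f J V₁ hJ' (fun i hi => (hU1 i).2 ⟨by
    rintro rfl
    exact hjJ hi, Or.inl hi⟩) (fun _ _ _ h => h) (T.erase j) (fun i => by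
      rw [Finset.mem_erase, hTm, hU1]
      constructor
      · rintro ⟨h2, h3, h4⟩
        exact ⟨⟨h2, Or.inr h4⟩, h3⟩
      · rintro ⟨⟨h2, h3⟩, h4⟩
        exact ⟨h2, h4, h3.resolve_left h4⟩)
  have h2 := cut_e χ V₁ rfl e he (fun _ _ _ h => h) hftT hcl hPu
  rw [htor, Finset.card_erase_of_mem hjT, hTc] at h2
  -- the free coordinates of the hypersurface
  obtain ⟨T₂, hT₂def⟩ : ∃ T : Finset σ, T = univ.filter fun i => i ∉ J ∧ ∃ α ∈ I, α i ≠ 0 :=
    ⟨_, rfl⟩
  have hT₂m : ∀ i, i ∈ T₂ ↔ i ∉ J ∧ ∃ α ∈ I, α i ≠ 0 := by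
    intro i
    rw [hT₂def, Finset.mem_filter]
    simp
  have hT₂c : T₂.card = dd I J := by
    rw [hT₂def]
    unfold dd
    congr
  have hsub : T₂ ⊆ T.erase j := by
    intro i hi
    rw [hT₂m] at hi
    obtain ⟨h3, α, hα, h4⟩ := hi
    rw [Finset.mem_erase, hTm]
    refine ⟨?_, h3, α, (hI' α).2 (Or.inr hα), h4⟩
    rintro rfl
    exact h4 (hIj α hα)
  have h3 := hsp V₁ rfl (T.erase j \ T₂) (fun i hi => by
    rw [Finset.mem_sdiff, Finset.mem_erase, hTm, hT₂m] at hi
    obtain ⟨⟨h4, h5, h6⟩, h7⟩ := hi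
    refine ⟨(hU1 i).2 ⟨h4, Or.inr h6⟩, by rw [show V₁.J = J from hJ']; exact h5,
      fun α hα => ?_⟩
    by_contra h8
    exact h7 ⟨h5, α, mem_of_mem_part_support hα, h8⟩)
  rw [Finset.card_sdiff_of_subset hsub, Finset.card_erase_of_mem hjT, hTc, hT₂c] at h3
  have hUr : (TS.rem V₁ (T.erase j \ T₂)).U = V.U := by
    ext i
    rw [TS.mem_rem, hU1, Finset.mem_sdiff, Finset.mem_erase, hTm, hT₂m, hU, mem_freeV]
    push Not
    constructor
    · rintro ⟨⟨h4, h5⟩, h6⟩ h7
      have h8 := h5.resolve_left h7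
      exact (h6 ⟨h4, h7, h8⟩).2
    · intro h4
      by_cases h5 : i ∈ J
      · exact ⟨⟨by rintro rfl; exact hjJ h5, Or.inl h5⟩, fun h6 => absurd h5 h6.2.1⟩
      · obtain ⟨α, hα, h6⟩ := h4 h5
        refine ⟨⟨?_, Or.inr ⟨α, (hI' α).2 (Or.inr hα), h6⟩⟩, fun _ => ⟨h5, α, hα, h6⟩⟩
        rintro rfl
        exact h6 (hIj α hα)
  have h4 : χ.χ (TQ (TS.rem V₁ (T.erase j \ T₂)) (fun S _ _ s => s = e S)
      (hP (TS.rem V₁ (T.erase j \ T₂)) rfl)) = χ.χ (TQ V (fun S _ _ s => s = e S) (hP V hμ)) :=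
    tq_same χ (TS.rem V₁ (T.erase j \ T₂)) V hUr.symm (hJ.trans hJ'.symm)
      (fun i hi => (hν i (hUr ▸ hi)).symm) (fun S _ _ s => s = e S) _ _
      (hft (TS.rem V₁ (T.erase j \ T₂)) rfl)
  rw [h4] at h3
  rw [← h3]
  exact eq_sub_of_add_eq' h2.symm

end inv

theorem exists_den {ι : Type} [Fintype ι] (w : ι → ℚ) :
    ∃ D : ℕ, D ≠ 0 ∧ ∀ i, ∃ n : ℤ, w i = n / D := by
  classical
  refine ⟨∏ i, (w i).den, Finset.prod_ne_zero_iff.2 fun i _ => (w i).den_ne_zero, fun i => ?_⟩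
  refine ⟨(w i).num * ∏ l ∈ univ.erase i, ((w l).den : ℤ), ?_⟩
  have h1 : (∏ l, (w l).den : ℕ) = (w i).den * ∏ l ∈ univ.erase i, (w l).den :=
    (Finset.mul_prod_erase univ (fun l => (w l).den) (Finset.mem_univ i)).symm
  have h2 : ((∏ l ∈ univ.erase i, (w l).den : ℕ) : ℚ) ≠ 0 := by
    have : (∏ l ∈ univ.erase i, (w l).den : ℕ) ≠ 0 :=
      Finset.prod_ne_zero_iff.2 fun i _ => (w i).den_ne_zero
    exact_mod_cast this
  have h3 : ((w i).den : ℚ) ≠ 0 := by
    exact_mod_cast (w i).den_ne_zero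
  rw [h1]
  push_cast at h2 ⊢
  rw [eq_div_iff (mul_ne_zero h3 h2)]
  nth_rewrite 1 [← Rat.num_div_den (w i)]
  field_simp

theorem cls (hFT : FTStmt) (hw : WeightStmt) (hs : SplitStmt) : ClsStmt := by
  classical
  intro k _ σ _ R _ L χ f
  refine ⟨?_, ?_, ?_⟩
  · intro I J A j hv
    refine ⟨?_, ?_⟩
    · refine elim_cl hFT hs χ f (J := J) hv (fun β => Finset.mem_insert)
        (V0 f (insert A I) J) (fun i => ?_) rfl (V0 f I J) (fun i => ?_) rfl (fun i _ => rfl) rfl
        rfl (fun S _ _ => 0) (fun φ => map_zero φ) (fun V hμ {S S'} _ _ _ _ φ c s h => hP0 V φ c s h)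
        (fun {S S'} _ _ _ _ φ c s h => hP0 _ φ c s h)
        (fun V hμ => (hFT k σ QZ).1 _ V) ((hFT k σ QZ).1 _ _)
        (fun V hμ T hT => (split_all hs χ V T hT).1)
      · show i ∈ univ \ freeV (insert A I) J ↔ _
        rw [Finset.mem_sdiff]
        simp
      · show i ∈ univ \ freeV I J ↔ _
        rw [Finset.mem_sdiff]
        simp
    · intro w hw1 hw2 hJ
      refine elim_cl hFT hs χ f (J := J) hv (fun β => Finset.mem_insert)
        (VQ f (insert A I) J w hw1 hJ) (fun i => ?_) rfl (VQ f I J w hw2 hJ) (fun i => ?_) rfl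
        (fun i _ => rfl) rfl
        rfl (fun S _ _ => 1) (fun φ => map_one φ)
        (fun V hμ {S S'} _ _ _ _ φ c s h => hP1 V hμ φ c s h)
        (fun {S S'} _ _ _ _ φ c s h => hP1 _ rfl φ c s h)
        (fun V hμ => (hFT k σ QZ).2.1 _ V hμ) ((hFT k σ QZ).2.1 _ _ rfl)
        (fun V hμ T hT => (split_all hs χ V T hT).2 hμ)
      · show i ∈ univ \ freeV (insert A I) J ↔ _
        rw [Finset.mem_sdiff]
        simp
      · show i ∈ univ \ freeV I J ↔ _
        rw [Finset.mem_sdiff]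
        simp
  · intro J w hw1 hJ
    refine χ.empty ((hFT k σ QZ).2.1 _ _ rfl) fun S _ _ x => ?_
    have h1 : MvPolynomial.aeval x.1 (part f ∅) = 1 := x.2.2
    have h2 : ∀ g : MvPolynomial σ k, g = 0 → ∀ y : σ → S, MvPolynomial.aeval y g = 0 := by
      rintro g rfl y
      exact map_zero _
    rw [← h1]
    exact h2 _ (part_empty f) _
  · intro I J w w' hw1 hJ hw2 hJ'
    obtain ⟨D, hD, h1⟩ := exists_den fun p : σ => w' p - w p
    choose δ hδ using h1
    have hDQ : (D : ℚ) ≠ 0 := by exact_mod_cast hD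
    refine (hw k σ R L χ (part f I) (VQ f I J w hw1 hJ) (VQ f I J w' hw2 hJ') rfl rfl
      (fun α hα i hi => ?_) δ (fun i hi => ?_) (((1 : ℚ) / D : ℚ) : QZ) (fun i => ?_)).2
      (fun α hα => ?_) rfl rfl
    · show i ∈ univ \ freeV I J
      rw [Finset.mem_sdiff, mem_freeV]
      exact ⟨Finset.mem_univ i, fun h2 => hi (h2.2 α (mem_of_mem_part_support hα))⟩
    · have h2 := hδ i
      rw [hJ i hi, hJ' i hi, sub_zero, eq_comm, div_eq_zero_iff] at h2
      rcases h2 with h2 | h2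
      · exact_mod_cast h2
      · exact absurd h2 hDQ
    · show ((w' i : ℚ) : QZ) = ((w i : ℚ) : QZ) + δ i • (((1 : ℚ) / D : ℚ) : QZ)
      rw [← AddCircle.coe_zsmul, ← AddCircle.coe_add]
      congr 1
      rw [zsmul_eq_mul, mul_one_div, ← hδ i]
      ring
    · have hα' := mem_of_mem_part_support hα
      have h2 : ((∑ i, δ i * (α i : ℤ) : ℤ) : ℚ) = 0 := by
        have h3 : ∀ i, (δ i : ℚ) = D * (w' i - w i) := by
          intro i
          rw [hδ i]
          field_simp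
        push_cast
        calc ∑ i, (δ i : ℚ) * (α i : ℚ) = ∑ i, D * (w' i * (α i : ℚ) - w i * (α i : ℚ)) :=
              Finset.sum_congr rfl fun i _ => by rw [h3 i]; ring
          _ = D * (∑ i, w' i * (α i : ℚ) - ∑ i, w i * (α i : ℚ)) := by
              rw [← Finset.mul_sum, Finset.sum_sub_distrib]
          _ = 0 := by rw [hw1 α hα', hw2 α hα', sub_self, mul_zero]
      exact_mod_cast h2

end Pool.Agent.Helper30_Simp2.H63
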