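import Pool.Agent.Helper30_Simp2.Stmts
import Pool.Agent.Helper68_Simp2.Leaf
import Pool.Agent.Helper32_Simp.ConeF

/-!
# SIMP2, module ZUNI: rationality of the normalized classes of the jet spaces
-/

set_option autoImplicit false
set_option linter.unusedVariables false
set_option linter.unusedSectionVars false

namespace Pool.Agent.Helper30_Simp2.H63

open PowerSeries Finset Pool.Agent.Helper6_Mono Pool.Agent.Helper30_Simp
open Pool.Agent.Helper30_Simp.H32

/-! ### The core -/

section core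

variable {σ : Type} [Fintype σ]

open scoped Classical in
/-- the core of a set of monomials -/
structure IsCore (J : Finset σ) (core : Finset (σ →₀ ℕ) → Finset (σ →₀ ℕ))
    (r : Finset (σ →₀ ℕ) → ℕ) : Prop where
  core_empty : core ∅ = ∅
  r_empty : r ∅ = 0
  sub : ∀ I, core I ⊆ I
  le : ∀ I, r I + dd (core I) J ≤ dd I J
  ins : ∀ (I : Finset (σ →₀ ℕ)) (A : σ →₀ ℕ) (j : σ), A ∉ I → j ∉ J → A j = 1 →
    (∀ β ∈ I, β j = 0) → core (insert A I) = core I ∧ r (insert A I) = r I + 1 ∧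
      dd I J + 1 ≤ dd (insert A I) J
  ind : ∀ I, (core I = I ∧ r I = 0) ∨ ∃ (I' : Finset (σ →₀ ℕ)) (A : σ →₀ ℕ) (j : σ),
    A ∉ I' ∧ j ∉ J ∧ A j = 1 ∧ (∀ β ∈ I', β j = 0) ∧ I = insert A I'

theorem exists_core (J : Finset σ) : ∃ (core : Finset (σ →₀ ℕ) → Finset (σ →₀ ℕ))
    (r : Finset (σ →₀ ℕ) → ℕ), IsCore J core r := by
  classical
  have key : ∀ (I : Finset (σ →₀ ℕ)) (A : σ →₀ ℕ), H68.IsLeaf J I A →
      H68.strip J I.card I = ((H68.strip J (I.erase A).card (I.erase A)).1,
        (H68.strip J (I.erase A).card (I.erase A)).2 + 1) := by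
    intro I A hA
    rw [H68.strip_leaf J I.card I A le_rfl hA, Finset.card_erase_of_mem hA.1]
  have all : ∀ (n : ℕ) (I : Finset (σ →₀ ℕ)), I.card = n →
      (H68.strip J I.card I).1 ⊆ I ∧
        (H68.strip J I.card I).2 + dd (H68.strip J I.card I).1 J ≤ dd I J := by
    intro n
    induction n with
    | zero =>
      intro I hI
      have e : I = ∅ := Finset.card_eq_zero.mp hI
      have h : ¬ ∃ A, H68.IsLeaf J I A := by
        rintro ⟨A, hA⟩
        rw [e] at hA
        exact absurd hA.1 (by simp)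
      rw [H68.strip_none J _ _ h]
      exact ⟨subset_rfl, by simp⟩
    | succ n ih =>
      intro I hI
      by_cases h : ∃ A, H68.IsLeaf J I A
      · obtain ⟨A, hA⟩ := h
        have c1 : (I.erase A).card = n := by
          rw [Finset.card_erase_of_mem hA.1]; omega
        obtain ⟨h1, h3⟩ := ih (I.erase A) c1
        rw [key I A hA]
        have h4 := H68.dd_erase hA
        have h5 : dd (I.erase A) J + 1 ≤ dd I J := by
          convert h4
        exact ⟨h1.trans (Finset.erase_subset _ _), by simp only; omega⟩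
      · rw [H68.strip_none J _ _ h]
        exact ⟨subset_rfl, by simp⟩
  refine ⟨fun I => (H68.strip J I.card I).1, fun I => (H68.strip J I.card I).2, rfl, rfl,
    fun I => (all _ I rfl).1, fun I => (all _ I rfl).2, ?_, ?_⟩
  · intro I A j hA hj h1 h2
    have hL : H68.IsLeaf J (insert A I) A := by
      refine ⟨Finset.mem_insert_self _ _, j, hj, h1, fun β hβ hne => ?_⟩
      rcases Finset.mem_insert.1 hβ with h | h
      · exact absurd h hne
      · exact h2 β h
    have he : (insert A I).erase A = I := Finset.erase_insert hA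
    have h3 := key _ A hL
    have h4 := H68.dd_erase hL
    have h5 : dd ((insert A I).erase A) J + 1 ≤ dd (insert A I) J := by
      convert h4
    rw [he] at h3 h5
    convert And.intro (congrArg Prod.fst h3) (And.intro (congrArg Prod.snd h3) h5)
  · intro I
    by_cases h : ∃ A, H68.IsLeaf J I A
    · obtain ⟨A, hA, j, hj, h1, h2⟩ := h
      refine Or.inr ⟨I.erase A, A, j, Finset.notMem_erase _ _, hj, h1, fun β hβ =>
        h2 β (Finset.mem_of_mem_erase hβ) (Finset.ne_of_mem_erase hβ), ?_⟩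
      ext β
      simp only [Finset.mem_insert, Finset.mem_erase]
      constructor
      · intro hβ
        by_cases h : β = A
        · exact Or.inl h
        · exact Or.inr ⟨h, hβ⟩
      · rintro (h | h)
        · rw [h]; exact hA
        · exact h.2
    · refine Or.inl ?_
      rw [H68.strip_none J _ _ h]
      exact ⟨rfl, rfl⟩

end core

/-! ### The classes in terms of the core -/

/-- the coefficient of the torus in the class of a set of monomials -/
def PP {R : Type*} [CommRing R] (y : R) (r d : ℕ) : R := ∑ i ∈ range r, (-1) ^ i * y ^ (d - 1 - i)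

section form

variable {σ : Type} [Fintype σ] {R : Type*} [CommRing R]

open scoped Classical in
theorem form (y τ : R) {M : Finset (σ →₀ ℕ)} {J : Finset σ}
    {core : Finset (σ →₀ ℕ) → Finset (σ →₀ ℕ)} {r : Finset (σ →₀ ℕ) → ℕ} (hc : IsCore J core r)
    (S : Finset (σ →₀ ℕ) → Prop) (hS : ∀ I I', I' ⊆ I → S I → S I')
    (Z : Finset (σ →₀ ℕ) → R)
    (hZ : ∀ I A j, Val M I J A j → S (insert A I) →
      Z (insert A I) = y ^ (dd (insert A I) J - 1) * τ
        - y ^ (dd (insert A I) J - 1 - dd I J) * Z I) :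
    ∀ (n : ℕ) (I : Finset (σ →₀ ℕ)), I.card = n → I ⊆ M → S I →
      Z I = PP y (r I) (dd I J) * τ + (-1) ^ r I * y ^ (dd I J - r I - dd (core I) J) * Z (core I) := by
  intro n
  induction n with
  | zero =>
    intro I hI hIM hSI
    have e : I = ∅ := Finset.card_eq_zero.mp hI
    rw [e, hc.core_empty, hc.r_empty]
    have h0 : dd (∅ : Finset (σ →₀ ℕ)) J - 0 - dd (∅ : Finset (σ →₀ ℕ)) J = 0 := by omega
    rw [h0]
    unfold PP
    simp
  | succ n ih =>
    intro I hI hIM hSI
    rcases hc.ind I with ⟨h1, h2⟩ | ⟨I', A, j, h1, h2, h3, h4, h5⟩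
    · rw [h1, h2]
      have h0 : dd I J - 0 - dd I J = 0 := by omega
      rw [h0]
      unfold PP
      simp
    · subst h5
      obtain ⟨g1, g2, g3⟩ := hc.ins I' A j h1 h2 h3 h4
      have hle := hc.le I'
      have hIM' : I' ⊆ M := (Finset.subset_insert _ _).trans hIM
      have hcard : I'.card = n := by
        rw [Finset.card_insert_of_notMem h1] at hI
        omega
      rw [hZ I' A j ⟨hIM', hIM (Finset.mem_insert_self _ _), h1, h2, h3, h4⟩ hSI,
        ih I' hcard hIM' (hS _ _ (Finset.subset_insert _ _) hSI), g1, g2]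
      obtain ⟨D, hD⟩ : ∃ D, D = dd (insert A I') J := ⟨_, rfl⟩
      obtain ⟨d, hd⟩ : ∃ d, d = dd I' J := ⟨_, rfl⟩
      obtain ⟨κ, hκ⟩ : ∃ κ, κ = dd (core I') J := ⟨_, rfl⟩
      rw [← hD] at g3 ⊢
      rw [← hd] at g3 hle ⊢
      rw [← hκ] at hle ⊢
      have e1 : y ^ (D - 1 - d) * PP y (r I') d = ∑ i ∈ range (r I'), (-1) ^ i * y ^ (D - 1 - (i + 1)) := by
        unfold PP
        rw [Finset.mul_sum]
        refine Finset.sum_congr rfl fun i hi => ?_
        rw [Finset.mem_range] at hi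
        rw [mul_left_comm, ← pow_add]
        congr 2
        omega
      have e2 : PP y (r I' + 1) D = y ^ (D - 1) -
          ∑ i ∈ range (r I'), (-1) ^ i * y ^ (D - 1 - (i + 1)) := by
        unfold PP
        rw [Finset.sum_range_succ']
        have : ∑ i ∈ range (r I'), (-1) ^ (i + 1) * y ^ (D - 1 - (i + 1))
            = - ∑ i ∈ range (r I'), (-1) ^ i * y ^ (D - 1 - (i + 1)) := by
          rw [← Finset.sum_neg_distrib]
          refine Finset.sum_congr rfl fun i _ => ?_
          ring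
        rw [this]
        simp
        ring
      have e3 : y ^ (D - 1 - d) * y ^ (d - r I' - κ) = y ^ (D - (r I' + 1) - κ) := by
        rw [← pow_add]
        congr 1
        omega
      rw [e2]
      linear_combination (-τ) * e1 - (-1) ^ r I' * Z (core I') * e3

end form

/-! ### The sequences -/

/-- the monomials which represent the powers of the class of the punctured line -/
def pe {A : Type*} [CommRing A] (x : A) (n e : ℕ) : A := x ^ (n - e) * (1 - x) ^ e

theorem pe_map {A B : Type*} [CommRing A] [CommRing B] (φ : A →+* B) (x : A) (n e : ℕ) :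
    φ (pe x n e) = pe (φ x) n e := by
  unfold pe
  rw [map_mul, map_pow, map_pow, map_sub, map_one]

theorem pe_Li {R : Type*} [CommRing R] (L : Rˣ) {n e : ℕ} (h : e ≤ n) :
    (L : R) ^ n * pe (Li L) n e = ((L : R) - 1) ^ e := by
  obtain ⟨s, rfl⟩ := Nat.exists_eq_add_of_le h
  have h1 := Li_mul L
  have h2 : (L : R) ^ s * Li L ^ s = 1 := by
    rw [← mul_pow, mul_comm, h1, one_pow]
  have h3 : (L : R) ^ e * (1 - Li L) ^ e = ((L : R) - 1) ^ e := by
    rw [← mul_pow]
    congr 1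
    linear_combination -h1
  unfold pe
  rw [Nat.add_sub_cancel_left, pow_add, ← h3]
  linear_combination ((L : R) ^ e * (1 - Li L) ^ e) * h2

section seq

variable {σ : Type} [Fintype σ]

open scoped Classical in
/-- the number of variables which are not in `J` -/
noncomputable def nJ (J : Finset σ) : ℕ := (univ.filter fun i => i ∉ J).card

theorem card_free (I : Finset (σ →₀ ℕ)) (J : Finset σ) :
    (freeV I J).card + dd I J = nJ J := by
  classical
  have h1 : dd I J = (univ.filter fun i => i ∉ J ∧ ∃ α ∈ I, α i ≠ 0).card := by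
    unfold dd
    congr
  have h2 : nJ J = (univ.filter fun i => i ∉ J).card := by
    unfold nJ
    congr
  rw [h1, h2, ← Finset.card_union_of_disjoint]
  · congr 1
    ext i
    rw [Finset.mem_union, mem_freeV, Finset.mem_filter, Finset.mem_filter]
    constructor
    · rintro (h | h)
      · exact ⟨Finset.mem_univ i, h.1⟩
      · exact ⟨Finset.mem_univ i, h.2.1⟩
    · rintro ⟨-, h⟩
      by_cases h3 : ∀ α ∈ I, α i = 0
      · exact Or.inl ⟨h, h3⟩
      · push Not at h3
        exact Or.inr ⟨Finset.mem_univ i, h, h3⟩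
  · rw [Finset.disjoint_left]
    intro i hi hi'
    rw [mem_freeV] at hi
    rw [Finset.mem_filter] at hi'
    obtain ⟨-, -, α, hα, h⟩ := hi'
    exact h (hi.2 α hα)

theorem gf_eq {M I : Finset (σ →₀ ℕ)} {J : Finset σ} {α₀ : σ →₀ ℕ} (hα₀ : α₀ ∈ I) (l : ℕ) :
    gf (fun i => α₀ i) {u | CellS M I J u (dot u α₀)} l = gfc M I J l := by
  unfold gf gfc
  ext d
  rw [PowerSeries.coeff_mk, PowerSeries.coeff_mk]
  congr 1
  refine Nat.card_congr (Equiv.subtypeEquivRight fun u => ?_)
  have hd : ∑ i, α₀ i * u i = dot u α₀ := by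
    rw [dot_nat]
    exact Finset.sum_congr rfl fun i _ => mul_comm _ _
  rw [hd]
  constructor
  · rintro ⟨h, h', h''⟩
    have h1 : CellS M I J u (dot u α₀) := h
    rw [h'] at h1
    exact ⟨h1, h''⟩
  · rintro ⟨h, h''⟩
    have h' := h.eq α₀ hα₀
    refine ⟨?_, h', h''⟩
    show CellS M I J u (dot u α₀)
    rw [h']
    exact h

/-- the main identity in the form needed here -/
theorem pe_cs {M I : Finset (σ →₀ ℕ)} {J : Finset σ} (hI : I.Nonempty) (l : ℕ) {n s e : ℕ}
    (hn : (freeV I J).card + e + s = n) {q : ℤ⟦X⟧} (hq : (1 - X) * q = 1) :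
    pe X n e * cs X M I J l l = (1 - X) ^ n * (X * q) ^ s * gfc M I J l := by
  obtain ⟨α₀, hα₀⟩ := hI
  have h1 := main_identity (M := M) (J := J) hα₀ l
  rw [gf_eq hα₀] at h1
  obtain ⟨F, hF⟩ : ∃ F, F = (freeV I J).card := ⟨_, rfl⟩
  rw [← hF] at hn h1
  have h2 : (X : ℤ⟦X⟧) ^ F ≠ 0 := pow_ne_zero _ PowerSeries.X_ne_zero
  refine mul_left_cancel₀ h2 ?_
  have h3 : n - e = F + s := by omega
  have h4 : ((1 - X) * q) ^ s = (1 : ℤ⟦X⟧) := by rw [hq, one_pow]
  rw [mul_pow] at h4
  unfold pe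
  rw [h3, ← hn, pow_add, pow_add, pow_add, mul_pow]
  calc X ^ F * (X ^ F * X ^ s * (1 - X) ^ e * cs X M I J l l)
      = X ^ F * X ^ s * (1 - X) ^ e * (X ^ F * cs X M I J l l) := by ring
    _ = X ^ F * X ^ s * (1 - X) ^ e * ((1 - X) ^ F * gfc M I J l) := by rw [h1]
    _ = X ^ F * X ^ s * (1 - X) ^ e * ((1 - X) ^ F * gfc M I J l) * 1 := by rw [mul_one]
    _ = X ^ F * X ^ s * (1 - X) ^ e * ((1 - X) ^ F * gfc M I J l) * ((1 - X) ^ s * q ^ s) := by
        rw [h4]
    _ = _ := by ring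

open scoped Classical in
theorem seqZ (hzsc : ZScStmt) (hgcd : GcdStmt) {M : Finset (σ →₀ ℕ)} (hM : M.Nonempty)
    {B : Set ℚ} (hB1 : 1 ∉ B) (hB : ∀ x ∈ B, AllUB M x) (hB0 : B.Nonempty) (J : Finset σ)
    (c : ℤ⟦X⟧) (y1 y0 : Finset (σ →₀ ℕ) → ℤ⟦X⟧) (h1 : y1 ∅ = 0) (h0 : y0 ∅ = c)
    (hy1 : ∀ I A j, Val M I J A j → (1 - X) * y1 (insert A I) = X * (c - y1 I))
    (hy0 : ∀ I A j, Val M I J A j → (1 - X) * y0 (insert A I) = X * (c - y0 I))
    (D : ℤ⟦X⟧) (z1 z0 : Finset (σ →₀ ℕ) → Polynomial ℤ)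
    (hz1 : ∀ I : Finset (σ →₀ ℕ), I.Nonempty → ∀ l,
      (z1 I : ℤ⟦X⟧) * cs X M I J l l = D * y1 I * gfc M I J l)
    (hz0 : ∀ I : Finset (σ →₀ ℕ), I.Nonempty → ∀ l,
      (z0 I : ℤ⟦X⟧) * cs X M I J l l = D * y0 I * gfc M I J l) :
    RQ (Polynomial.X : Polynomial ℤ) (steps ((slopes M ∪ {1}) \ B)) (fun m =>
      ∑ I ∈ M.powerset, (z1 I * cs Polynomial.X M I J m m
        + z0 I * ∑ l ∈ range m, Polynomial.X ^ (m - l) * cs Polynomial.X M I J l l)) := by
  have key : ∀ x ∈ B, RQ (Polynomial.X : Polynomial ℤ) (steps ((slopes M ∪ {1}) \ {x})) (fun m =>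
      ∑ I ∈ M.powerset, (z1 I * cs Polynomial.X M I J m m
        + z0 I * ∑ l ∈ range m, Polynomial.X ^ (m - l) * cs Polynomial.X M I J l l)) := by
    intro x hx
    have h2 := hzsc σ M hM x (fun h => hB1 (h ▸ hx)) (hB x hx) (fun J' => if J' = J then c else 0)
      (fun I J' => if J' = J then y1 I else 0) (fun I J' => if J' = J then y0 I else 0)
      (fun J' => by simp only [h1, ite_self]) (fun J' => by simp only [h0])
      (fun I J' A j hv => by
        by_cases h : J' = J
        · subst h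
          simp only [if_true]
          exact hy1 I A j hv
        · simp only [if_neg h]
          ring)
      (fun I J' A j hv => by
        by_cases h : J' = J
        · subst h
          simp only [if_true]
          exact hy0 I A j hv
        · simp only [if_neg h]
          ring)
    refine RQ_of_inj (Polynomial.coeToPowerSeries.ringHom)
      (fun p q h => Polynomial.coe_injective ℤ (by simpa using h)) (RQ_smul D h2) (by simp)
      fun m => ?_
    rw [map_sum, Finset.mul_sum]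
    refine Finset.sum_congr rfl fun I _ => ?_
    rw [Finset.sum_eq_single J]
    rotate_left
    · intro J' _ hJ'
      simp only [if_neg hJ', zero_mul, add_zero, ite_self]
    · intro h
      exact absurd (Finset.mem_powerset.2 (Finset.subset_univ J)) h
    have hcs : ∀ l, (Polynomial.coeToPowerSeries.ringHom : Polynomial ℤ →+* ℤ⟦X⟧)
        (cs Polynomial.X M I J l l) = cs X M I J l l := by
      intro l
      rw [cs_map]
      simp
    rw [map_add, map_mul, map_mul, map_sum, hcs]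
    have hsum : ∑ l ∈ range m, (Polynomial.coeToPowerSeries.ringHom : Polynomial ℤ →+* ℤ⟦X⟧)
        (Polynomial.X ^ (m - l) * cs Polynomial.X M I J l l)
        = ∑ l ∈ range m, X ^ (m - l) * cs X M I J l l := by
      refine Finset.sum_congr rfl fun l _ => ?_
      rw [map_mul, map_pow, hcs]
      simp
    rw [hsum]
    by_cases hI : I = ∅
    · have h3 : ∀ l, cs (X : ℤ⟦X⟧) M I J l l = 0 := by
        intro l
        unfold cs
        refine Finset.sum_eq_zero fun u _ => ?_
        rw [if_neg]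
        intro h
        exact absurd h.ne (by rw [hI]; simp)
      simp only [if_pos hI, h3, mul_zero, Finset.sum_const_zero, add_zero]
    · have hI' := Finset.nonempty_iff_ne_empty.2 hI
      simp only [if_neg hI, if_true]
      have e1 := hz1 I hI' m
      have e0 : (z0 I : ℤ⟦X⟧) * ∑ l ∈ range m, X ^ (m - l) * cs X M I J l l
          = D * y0 I * ∑ l ∈ range m, X ^ (m - l) * gfc M I J l := by
        rw [Finset.mul_sum, Finset.mul_sum]
        refine Finset.sum_congr rfl fun l _ => ?_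
        rw [mul_left_comm, hz0 I hI' l]
        ring
      have e2 : (Polynomial.coeToPowerSeries.ringHom : Polynomial ℤ →+* ℤ⟦X⟧) (z1 I) = z1 I := rfl
      have e3 : (Polynomial.coeToPowerSeries.ringHom : Polynomial ℤ →+* ℤ⟦X⟧) (z0 I) = z0 I := rfl
      rw [e2, e3, e1, e0]
      ring
  obtain ⟨x₀, hx₀⟩ := hB0
  refine hgcd _ B _ ?_ key
  have hmono : ∀ {P Q : Set (ℕ × ℕ)} {a : ℕ → Polynomial ℤ}, P ⊆ Q → RQ Polynomial.X P a →
      RQ Polynomial.X Q a := by
    intro P Q a hPQ h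
    induction h with
    | fin a N h => exact .fin _ N h
    | step a u v huv _ ih => exact .step _ u v (hPQ huv) ih
  refine hmono ?_ (key x₀ hx₀)
  intro p hp
  exact ⟨hp.1, hp.2.1⟩

variable {R : Type*} [CommRing R] (L : Rˣ)

/-- the evaluation of integral polynomials at the inverse of the class of the line -/
noncomputable def evL : Polynomial ℤ →+* R := Polynomial.eval₂RingHom (Int.castRingHom R) (Li L)

theorem evL_X : evL L Polynomial.X = Li L := by
  unfold evL
  simp

/-- sequences given by coefficients for all sets of monomials -/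
def Good (M : Finset (σ →₀ ℕ)) (B : Set ℚ) (J : Finset σ) (a1 a0 : Finset (σ →₀ ℕ) → R) : Prop :=
  RP L (steps ((slopes M ∪ {1}) \ B)) (fun m => ∑ I ∈ M.powerset, (a1 I * cs (Li L) M I J m m
    + a0 I * ∑ l ∈ range m, Li L ^ (m - l) * cs (Li L) M I J l l))

variable {L} {M : Finset (σ →₀ ℕ)} {B : Set ℚ} {J : Finset σ}

theorem Good.add {a1 a0 b1 b0 : Finset (σ →₀ ℕ) → R} (ha : Good L M B J a1 a0)
    (hb : Good L M B J b1 b0) : Good L M B J (fun I => a1 I + b1 I) (fun I => a0 I + b0 I) := by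
  refine (RP.add ha hb).congr fun m => ?_
  rw [← Finset.sum_add_distrib]
  refine Finset.sum_congr rfl fun I _ => ?_
  ring

theorem Good.smul (c : R) {a1 a0 : Finset (σ →₀ ℕ) → R} (ha : Good L M B J a1 a0) :
    Good L M B J (fun I => c * a1 I) (fun I => c * a0 I) := by
  refine (RP.smul c ha).congr fun m => ?_
  rw [Finset.mul_sum]
  refine Finset.sum_congr rfl fun I _ => ?_
  ring

theorem Good.zero : Good L M B J (fun _ => (0 : R)) (fun _ => 0) := by
  refine RP.zero.congr fun m => ?_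
  rw [Finset.sum_eq_zero]
  intro I _
  ring

theorem Good.sum {ι : Type*} (s : Finset ι) {a1 a0 : ι → Finset (σ →₀ ℕ) → R}
    (h : ∀ i ∈ s, Good L M B J (a1 i) (a0 i)) :
    Good L M B J (fun I => ∑ i ∈ s, a1 i I) (fun I => ∑ i ∈ s, a0 i I) := by
  classical
  induction s using Finset.induction_on with
  | empty => simpa using Good.zero
  | insert i s hi ih =>
    simp only [Finset.sum_insert hi]
    exact (h i (Finset.mem_insert_self _ _)).add (ih fun j hj => h j (Finset.mem_insert_of_mem hj))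

theorem Good.congr {a1 a0 b1 b0 : Finset (σ →₀ ℕ) → R} (ha : Good L M B J a1 a0)
    (h1 : ∀ I ∈ M.powerset, a1 I = b1 I) (h0 : ∀ I ∈ M.powerset, a0 I = b0 I) :
    Good L M B J b1 b0 := by
  refine RP.congr ha fun m => ?_
  refine Finset.sum_congr rfl fun I hI => ?_
  rw [h1 I hI, h0 I hI]

open scoped Classical in
theorem good_seq (hzsc : ZScStmt) (hgcd : GcdStmt) (L : Rˣ) (hM : M.Nonempty)
    (hB1 : 1 ∉ B) (hB : ∀ x ∈ B, AllUB M x) (hB0 : B.Nonempty)
    (c : ℤ⟦X⟧) (y1 y0 : Finset (σ →₀ ℕ) → ℤ⟦X⟧) (h1 : y1 ∅ = 0) (h0 : y0 ∅ = c)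
    (hy1 : ∀ I A j, Val M I J A j → (1 - X) * y1 (insert A I) = X * (c - y1 I))
    (hy0 : ∀ I A j, Val M I J A j → (1 - X) * y0 (insert A I) = X * (c - y0 I))
    (D : ℤ⟦X⟧) (z1 z0 : Finset (σ →₀ ℕ) → Polynomial ℤ)
    (hz1 : ∀ I : Finset (σ →₀ ℕ), I.Nonempty → ∀ l,
      (z1 I : ℤ⟦X⟧) * cs X M I J l l = D * y1 I * gfc M I J l)
    (hz0 : ∀ I : Finset (σ →₀ ℕ), I.Nonempty → ∀ l,
      (z0 I : ℤ⟦X⟧) * cs X M I J l l = D * y0 I * gfc M I J l) :
    Good L M B J (fun I => evL L (z1 I)) (fun I => evL L (z0 I)) := by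
  have h2 := RQ_map (evL L) (seqZ hzsc hgcd hM hB1 hB hB0 J c y1 y0 h1 h0 hy1 hy0 D z1 z0 hz1 hz0)
  refine (RQ_toRP L (evL_X L) h2).congr fun m => ?_
  rw [map_sum]
  refine Finset.sum_congr rfl fun I _ => ?_
  rw [map_add, map_mul, map_mul, map_sum, cs_map, evL_X]
  congr 2
  refine Finset.sum_congr rfl fun l _ => ?_
  rw [map_mul, map_pow, cs_map, evL_X]

/-! ### The families of coefficients -/

/-- alternating sums of powers -/
def TA {A : Type*} [CommRing A] (t : A) (r : ℕ) : A := ∑ i ∈ range r, (-1) ^ i * t ^ (i + 1)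

theorem TA_succ {A : Type*} [CommRing A] (t : A) (r : ℕ) : TA t (r + 1) = t * (1 - TA t r) := by
  unfold TA
  rw [Finset.sum_range_succ', mul_sub, Finset.mul_sum]
  have : ∑ i ∈ range r, (-1 : A) ^ (i + 1) * t ^ (i + 1 + 1)
      = - ∑ i ∈ range r, t * ((-1) ^ i * t ^ (i + 1)) := by
    rw [← Finset.sum_neg_distrib]
    refine Finset.sum_congr rfl fun i _ => ?_
    ring
  rw [this]
  ring

variable {core : Finset (σ →₀ ℕ) → Finset (σ →₀ ℕ)} {r : Finset (σ →₀ ℕ) → ℕ}

theorem hom_pe (φ : Polynomial ℤ →+* ℤ⟦X⟧) (hφ : φ Polynomial.X = X) (n e : ℕ) :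
    φ (pe Polynomial.X n e) = pe X n e := by
  rw [pe_map, hφ]

theorem coe_pe (n e : ℕ) : ((pe Polynomial.X n e : Polynomial ℤ) : ℤ⟦X⟧) = pe X n e :=
  hom_pe Polynomial.coeToPowerSeries.ringHom (by simp) n e

theorem coe_rh (p : Polynomial ℤ) : (p : ℤ⟦X⟧)
    = (Polynomial.coeToPowerSeries.ringHom : Polynomial ℤ →+* ℤ⟦X⟧) p := rfl

/-- polynomial coefficients for the torus -/
noncomputable def ZP (n r d : ℕ) : Polynomial ℤ :=
  ∑ i ∈ range r, (-1) ^ i * pe Polynomial.X n (d - 1 - i)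

/-- polynomial coefficients for the core -/
noncomputable def ZK (n r e : ℕ) : Polynomial ℤ := (-1) ^ r * pe Polynomial.X n e

theorem evL_ZP (L : Rˣ) {n r d : ℕ} (hr : r ≤ d) (hd : d ≤ n) :
    (L : R) ^ n * evL L (ZP n r d) = PP ((L : R) - 1) r d := by
  unfold ZP PP
  rw [map_sum, Finset.mul_sum]
  refine Finset.sum_congr rfl fun i hi => ?_
  rw [map_mul, pe_map, evL_X, map_pow, map_neg, map_one, mul_left_comm, pe_Li L (by omega)]

theorem evL_ZK (L : Rˣ) {n r e : ℕ} (he : e ≤ n) :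
    (L : R) ^ n * evL L (ZK n r e) = (-1) ^ r * ((L : R) - 1) ^ e := by
  unfold ZK
  rw [map_mul, pe_map, evL_X, map_pow, map_neg, map_one, mul_left_comm, pe_Li L he]

theorem ZP_cs (hc : IsCore J core r) {q : ℤ⟦X⟧} (hq : (1 - X) * q = 1) (M : Finset (σ →₀ ℕ))
    {I : Finset (σ →₀ ℕ)} (hI : I.Nonempty) (l : ℕ) :
    (ZP (nJ J) (r I) (dd I J) : ℤ⟦X⟧) * cs X M I J l l
      = (1 - X) ^ nJ J * TA (X * q) (r I) * gfc M I J l := by
  have h1 := hc.le I
  have h2 := card_free I J
  have h3 : (ZP (nJ J) (r I) (dd I J) : ℤ⟦X⟧)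
      = ∑ i ∈ range (r I), (-1) ^ i * pe X (nJ J) (dd I J - 1 - i) := by
    rw [coe_rh]
    unfold ZP
    rw [map_sum]
    refine Finset.sum_congr rfl fun i _ => ?_
    rw [map_mul, hom_pe _ (by simp), map_pow, map_neg, map_one]
  rw [h3]
  unfold TA
  rw [Finset.mul_sum, Finset.sum_mul, Finset.sum_mul]
  refine Finset.sum_congr rfl fun i hi => ?_
  rw [Finset.mem_range] at hi
  rw [mul_assoc, pe_cs (s := i + 1) hI l (by omega) hq]
  ring

theorem ZK_cs (hc : IsCore J core r) {q : ℤ⟦X⟧} (hq : (1 - X) * q = 1) (M : Finset (σ →₀ ℕ))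
    {I : Finset (σ →₀ ℕ)} (hI : I.Nonempty) (l : ℕ) :
    (ZK (nJ J) (r I) (dd I J - r I - dd (core I) J) : ℤ⟦X⟧) * cs X M I J l l
      = (1 - X) ^ nJ J * (X * q) ^ dd (core I) J * ((-1) ^ r I * (X * q) ^ r I)
        * gfc M I J l := by
  have h1 := hc.le I
  have h2 := card_free I J
  have h3 : (ZK (nJ J) (r I) (dd I J - r I - dd (core I) J) : ℤ⟦X⟧)
      = (-1) ^ r I * pe X (nJ J) (dd I J - r I - dd (core I) J) := by
    rw [coe_rh]
    unfold ZK
    rw [map_mul, hom_pe _ (by simp), map_pow, map_neg, map_one]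
  rw [h3, mul_assoc, pe_cs (s := dd (core I) J + r I) hI l (by omega) hq, pow_add]
  ring

open scoped Classical in
theorem good_all (hzsc : ZScStmt) (hgcd : GcdStmt) (L : Rˣ) (hM : M.Nonempty)
    (hB1 : 1 ∉ B) (hB : ∀ x ∈ B, AllUB M x) (hB0 : B.Nonempty) (hc : IsCore J core r)
    (τ : R) (Y1 Y0 : Finset (σ →₀ ℕ) → R) (h1 : Y1 ∅ = 0) (h0 : Y0 ∅ = τ) :
    Good L M B J
      (fun I => PP ((L : R) - 1) (r I) (dd I J) * τ
        + (-1) ^ r I * ((L : R) - 1) ^ (dd I J - r I - dd (core I) J) * Y1 (core I))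
      (fun I => PP ((L : R) - 1) (r I) (dd I J) * τ
        + (-1) ^ r I * ((L : R) - 1) ^ (dd I J - r I - dd (core I) J) * Y0 (core I)) := by
  obtain ⟨q, hq⟩ : ∃ q : ℤ⟦X⟧, (1 - X) * q = 1 := by
    have h2 : IsUnit (1 - X : ℤ⟦X⟧) := by
      rw [PowerSeries.isUnit_iff_constantCoeff]
      simp
    obtain ⟨u, hu⟩ := h2
    refine ⟨(u⁻¹ : ℤ⟦X⟧ˣ), ?_⟩
    rw [← hu, Units.mul_inv]
  have ht : (1 - X) * (X * q) = (X : ℤ⟦X⟧) := by
    rw [mul_left_comm, hq, mul_one]
  have hd : ∀ I, dd I J ≤ nJ J := fun I => by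
    have := card_free I J
    omega
  -- the family of the torus
  have gT : Good L M B J
      (fun I => PP ((L : R) - 1) (r I) (dd I J))
      (fun I => PP ((L : R) - 1) (r I) (dd I J) + if core I = ∅ then
        (-1) ^ r I * ((L : R) - 1) ^ (dd I J - r I - dd (core I) J) else 0) := by
    have h2 := good_seq (M := M) (B := B) (J := J) hzsc hgcd L hM hB1 hB hB0 1
      (fun I => TA (X * q) (r I))
      (fun I => TA (X * q) (r I) + if core I = ∅ then (-1) ^ r I * (X * q) ^ r I else 0)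
      (by
        simp only [hc.r_empty]
        unfold TA
        simp)
      (by
        simp only [hc.r_empty, hc.core_empty]
        unfold TA
        simp)
      (fun I A j hv => by
        obtain ⟨v1, v2, v3, v4, v5, v6⟩ := hv
        obtain ⟨g1, g2, -⟩ := hc.ins I A j v3 v4 v5 v6
        simp only [g2, TA_succ]
        rw [← mul_assoc, ht])
      (fun I A j hv => by
        obtain ⟨v1, v2, v3, v4, v5, v6⟩ := hv
        obtain ⟨g1, g2, -⟩ := hc.ins I A j v3 v4 v5 v6
        simp only [g1, g2, TA_succ]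
        split_ifs with h3
        · linear_combination (1 - TA (X * q) (r I) - (-1) ^ r I * (X * q) ^ r I) * ht
        · linear_combination (1 - TA (X * q) (r I)) * ht)
      ((1 - X) ^ nJ J) (fun I => ZP (nJ J) (r I) (dd I J))
      (fun I => ZP (nJ J) (r I) (dd I J) + if core I = ∅ then
        ZK (nJ J) (r I) (dd I J - r I - dd (core I) J) else 0)
      (fun I hI l => ZP_cs hc hq M hI l)
      (fun I hI l => by
        have h3 := ZP_cs hc hq M hI l
        by_cases h4 : core I = ∅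
        · have h5 := ZK_cs hc hq M hI l
          have h6 : dd (core I) J = 0 := by
            rw [h4]
            unfold dd
            simp
          simp only [if_pos h4]
          rw [Polynomial.coe_add, add_mul, h3, h5, h6]
          ring
        · simp only [if_neg h4, add_zero]
          exact h3)
    refine (h2.smul ((L : R) ^ nJ J)).congr (fun I _ => ?_) (fun I _ => ?_)
    · exact evL_ZP L ((Nat.le_add_right _ _).trans (hc.le I)) (hd I)
    · have h7 := evL_ZP L ((Nat.le_add_right _ _).trans (hc.le I)) (hd I)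
      by_cases h4 : core I = ∅
      · simp only [if_pos h4]
        rw [map_add, mul_add, h7, evL_ZK L (by have := hd I; omega)]
      · simp only [if_neg h4, add_zero]
        exact h7
  -- the families of the cores
  have hK : ∀ K : Finset (σ →₀ ℕ), K ≠ ∅ → ∀ ε1 ε0 : ℤ,
      Good L M B J
      (fun I => (ε1 : R) * if core I = K then
        (-1) ^ r I * ((L : R) - 1) ^ (dd I J - r I - dd (core I) J) else 0)
      (fun I => (ε0 : R) * if core I = K then
        (-1) ^ r I * ((L : R) - 1) ^ (dd I J - r I - dd (core I) J) else 0) := by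
    intro K hK ε1 ε0
    have hz : ∀ (ε : ℤ) (I : Finset (σ →₀ ℕ)), I.Nonempty → ∀ l,
        (((ε : Polynomial ℤ) * if core I = K then
          ZK (nJ J) (r I) (dd I J - r I - dd (core I) J) else 0 : Polynomial ℤ) : ℤ⟦X⟧)
          * cs X M I J l l = ((1 - X) ^ nJ J * (X * q) ^ dd K J)
            * ((ε : ℤ⟦X⟧) * if core I = K then (-1) ^ r I * (X * q) ^ r I else 0)
            * gfc M I J l := by
      intro ε I hI l
      by_cases h4 : core I = K
      · have h5 := ZK_cs hc hq M hI l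
        simp only [if_pos h4]
        have h6 : ((ε : Polynomial ℤ) : ℤ⟦X⟧) = (ε : ℤ⟦X⟧) :=
          map_intCast (Polynomial.coeToPowerSeries.ringHom : Polynomial ℤ →+* ℤ⟦X⟧) ε
        rw [Polynomial.coe_mul, h6, mul_assoc, h5, h4]
        ring
      · simp only [if_neg h4, mul_zero, Polynomial.coe_zero, zero_mul]
    have hy : ∀ (ε : ℤ) (I : Finset (σ →₀ ℕ)) A j, Val M I J A j →
        (1 - X) * ((ε : ℤ⟦X⟧) * if core (insert A I) = K then
          (-1) ^ r (insert A I) * (X * q) ^ r (insert A I) else 0)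
          = X * (0 - (ε : ℤ⟦X⟧) * if core I = K then (-1) ^ r I * (X * q) ^ r I else 0) := by
      intro ε I A j hv
      obtain ⟨v1, v2, v3, v4, v5, v6⟩ := hv
      obtain ⟨g1, g2, -⟩ := hc.ins I A j v3 v4 v5 v6
      rw [g1, g2]
      split_ifs with h3
      · linear_combination (-(ε : ℤ⟦X⟧) * (-1) ^ r I * (X * q) ^ r I) * ht
      · ring
    have he : ∀ ε : ℤ, ((ε : ℤ⟦X⟧) * if core ∅ = K then (-1) ^ r ∅ * (X * q) ^ r ∅ else 0)
        = 0 := by
      intro ε
      rw [hc.core_empty, if_neg (Ne.symm hK), mul_zero]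
    have h2 := good_seq (M := M) (B := B) (J := J) hzsc hgcd L hM hB1 hB hB0 0
      (fun I => (ε1 : ℤ⟦X⟧) * if core I = K then (-1) ^ r I * (X * q) ^ r I else 0)
      (fun I => (ε0 : ℤ⟦X⟧) * if core I = K then (-1) ^ r I * (X * q) ^ r I else 0)
      (he ε1) (he ε0) (hy ε1) (hy ε0) _ _ _ (hz ε1) (hz ε0)
    have h8 : ∀ (ε : ℤ) (I : Finset (σ →₀ ℕ)), (L : R) ^ nJ J * evL L ((ε : Polynomial ℤ) *
        if core I = K then ZK (nJ J) (r I) (dd I J - r I - dd (core I) J) else 0)
        = (ε : R) * if core I = K then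
        (-1) ^ r I * ((L : R) - 1) ^ (dd I J - r I - dd (core I) J) else 0 := by
      intro ε I
      rw [map_mul, map_intCast]
      by_cases h4 : core I = K
      · simp only [if_pos h4]
        rw [mul_left_comm, evL_ZK L (by have := hd I; omega)]
      · simp only [if_neg h4, map_zero, mul_zero]
    exact (h2.smul ((L : R) ^ nJ J)).congr (fun I _ => h8 ε1 I) (fun I _ => h8 ε0 I)
  -- the sum
  have hsum := (gT.smul τ).add (Good.sum (M.powerset.erase ∅) (fun K hK' =>
    ((hK K (Finset.ne_of_mem_erase hK') 1 0).smul (Y1 K)).add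
      ((hK K (Finset.ne_of_mem_erase hK') 0 1).smul (Y0 K))))
  refine hsum.congr (fun I hI => ?_) (fun I hI => ?_)
  · simp only [Int.cast_one, Int.cast_zero, one_mul, zero_mul, mul_zero, add_zero]
    by_cases h4 : core I = ∅
    · rw [h4, h1, Finset.sum_eq_zero]
      · ring
      · intro K hK'
        rw [if_neg (Ne.symm (Finset.ne_of_mem_erase hK')), mul_zero]
    · rw [Finset.sum_eq_single (core I)]
      · rw [if_pos rfl]
        ring
      · intro K _ hK'
        rw [if_neg (Ne.symm hK'), mul_zero]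
      · intro h5
        exact absurd (Finset.mem_erase.2 ⟨h4, Finset.mem_powerset.2
          ((hc.sub I).trans (Finset.mem_powerset.1 hI))⟩) h5
  · simp only [Int.cast_one, Int.cast_zero, one_mul, zero_mul, mul_zero, zero_add]
    by_cases h4 : core I = ∅
    · rw [Finset.sum_eq_zero]
      · rw [if_pos h4, h4, h0]
        ring
      · intro K hK'
        rw [h4, if_neg (Ne.symm (Finset.ne_of_mem_erase hK')), mul_zero]
    · rw [Finset.sum_eq_single (core I)]
      · rw [if_pos rfl, if_neg h4]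
        ring
      · intro K _ hK'
        rw [if_neg (Ne.symm hK'), mul_zero]
      · intro h5
        exact absurd (Finset.mem_erase.2 ⟨h4, Finset.mem_powerset.2
          ((hc.sub I).trans (Finset.mem_powerset.1 hI))⟩) h5

end seq

/-! ### The classes -/

section classes

variable {k : Type} [Field k] {σ : Type} [Fintype σ] {R : Type 1} [CommRing R] {L : Rˣ}

open scoped Classical in
/-- the class of the torus with `g = 1` -/
noncomputable def Y1w (χ : SInv k (fun _ : σ => (0 : QZ)) L) (f : MvPolynomial σ k) (J : Finset σ)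
    (I : Finset (σ →₀ ℕ)) : R :=
  if h : ∃ w : σ → ℚ, (∀ α ∈ I, ∑ i, w i * (α i : ℚ) = 1) ∧ ∀ i ∈ J, w i = 0 then
    χ.χ (TT1 (VQ f I J h.choose h.choose_spec.1 h.choose_spec.2) rfl) else 0

theorem Y1w_eq (hcls : ClsStmt) (χ : SInv k (fun _ : σ => (0 : QZ)) L) (f : MvPolynomial σ k)
    (J : Finset σ) (I : Finset (σ →₀ ℕ)) (w : σ → ℚ) (hw : ∀ α ∈ I, ∑ i, w i * (α i : ℚ) = 1)
    (hJ : ∀ i ∈ J, w i = 0) : Y1w χ f J I = χ.χ (TT1 (VQ f I J w hw hJ) rfl) := by
  have h : ∃ w : σ → ℚ, (∀ α ∈ I, ∑ i, w i * (α i : ℚ) = 1) ∧ ∀ i ∈ J, w i = 0 := ⟨w, hw, hJ⟩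
  unfold Y1w
  rw [dif_pos h]
  exact (hcls k σ R L χ f).2.2 I J _ _ _ _ _ _

theorem Y1w_empty (hcls : ClsStmt) (χ : SInv k (fun _ : σ => (0 : QZ)) L) (f : MvPolynomial σ k)
    (J : Finset σ) : Y1w χ f J ∅ = 0 := by
  rw [Y1w_eq hcls χ f J ∅ 0 (fun α hα => absurd hα (Finset.notMem_empty α)) (fun i _ => rfl)]
  exact (hcls k σ R L χ f).2.1 J _ _ _

theorem form0 (hcls : ClsStmt) (χ : SInv k (fun _ : σ => (0 : QZ)) L) (f : MvPolynomial σ k)
    {J : Finset σ} {core : Finset (σ →₀ ℕ) → Finset (σ →₀ ℕ)} {r : Finset (σ →₀ ℕ) → ℕ}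
    (hc : IsCore J core r) (I : Finset (σ →₀ ℕ)) (hI : I ⊆ f.support) :
    χ.χ (TT0 (V0 f I J)) = PP ((L : R) - 1) (r I) (dd I J) * χ.χ (TT0 (V0 f ∅ J))
      + (-1) ^ r I * ((L : R) - 1) ^ (dd I J - r I - dd (core I) J)
        * χ.χ (TT0 (V0 f (core I) J)) := by
  classical
  refine form ((L : R) - 1) (χ.χ (TT0 (V0 f ∅ J))) hc (fun _ => True) (fun _ _ _ h => h)
    (fun I => χ.χ (TT0 (V0 f I J))) (fun I A j hv _ => ?_) I.card I rfl hI trivial
  exact ((hcls k σ R L χ f).1 I J A j hv).1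

theorem form1 (hcls : ClsStmt) (χ : SInv k (fun _ : σ => (0 : QZ)) L) (f : MvPolynomial σ k)
    {J : Finset σ} {core : Finset (σ →₀ ℕ) → Finset (σ →₀ ℕ)} {r : Finset (σ →₀ ℕ) → ℕ}
    (hc : IsCore J core r) (w : σ → ℚ) (hJ : ∀ i ∈ J, w i = 0)
    (I : Finset (σ →₀ ℕ)) (hI : I ⊆ f.support) (hw : ∀ α ∈ I, ∑ i, w i * (α i : ℚ) = 1) :
    Y1w χ f J I = PP ((L : R) - 1) (r I) (dd I J) * χ.χ (TT0 (V0 f ∅ J))
      + (-1) ^ r I * ((L : R) - 1) ^ (dd I J - r I - dd (core I) J) * Y1w χ f J (core I) := by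
  classical
  refine form ((L : R) - 1) (χ.χ (TT0 (V0 f ∅ J))) hc
    (fun I => ∀ α ∈ I, ∑ i, w i * (α i : ℚ) = 1) (fun I I' h1 h2 α hα => h2 α (h1 hα))
    (Y1w χ f J) (fun I A j hv hS => ?_) I.card I rfl hI hw
  have hS' : ∀ α ∈ I, ∑ i, w i * (α i : ℚ) = 1 := fun α hα => hS α (Finset.mem_insert_of_mem hα)
  rw [Y1w_eq hcls χ f J _ w hS hJ, Y1w_eq hcls χ f J I w hS' hJ]
  exact ((hcls k σ R L χ f).1 I J A j hv).2 w hS hS' hJ

end classes

/-- MODULE ZUNI -/
theorem zuni (hcls : ClsStmt) (hzsc : ZScStmt) (hgcd : GcdStmt) (hS : StrataStmt) (h1 : P1Stmt)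
    (h2 : P2Stmt) (h3 : P3Stmt) (hN : NdegStmt) (hY : YttStmt) (hT : TruncStmt)
    (hC : ConeStmt) : Zfin2Stmt := by
  classical
  intro k _ _ σ _ R _ L χ f hf hsi hnd B hB1 hB
  by_cases hB0 : B.Nonempty
  swap
  · obtain rfl : B = ∅ := Set.not_nonempty_iff_eq_empty.1 hB0
    have h4 := H15.zfin hS h1 h2 h3 hN hY hT hC k σ R L χ f hf hsi hnd
    rw [Set.sdiff_empty]
    exact h4
  have hM : f.support.Nonempty := MvPolynomial.support_nonempty.2 hf
  choose core r hc using fun J : Finset σ => exists_core J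
  have hgood : ∀ J : Finset σ, Good L f.support B J
      (fun I => PP ((L : R) - 1) (r J I) (dd I J) * χ.χ (TT0 (V0 f ∅ J))
        + (-1) ^ r J I * ((L : R) - 1) ^ (dd I J - r J I - dd (core J I) J)
          * Y1w χ f J (core J I))
      (fun I => PP ((L : R) - 1) (r J I) (dd I J) * χ.χ (TT0 (V0 f ∅ J))
        + (-1) ^ r J I * ((L : R) - 1) ^ (dd I J - r J I - dd (core J I) J)
          * χ.χ (TT0 (V0 f (core J I) J))) := fun J =>
    good_all hzsc hgcd L hM hB1 hB hB0 (hc J) (χ.χ (TT0 (V0 f ∅ J))) (Y1w χ f J)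
      (fun I => χ.χ (TT0 (V0 f I J))) (Y1w_empty hcls χ f J) rfl
  obtain ⟨T, hTdef⟩ : ∃ T : ℕ → R, T = fun m => ∑ J ∈ (univ : Finset σ).powerset,
      ∑ I ∈ f.support.powerset,
      ((PP ((L : R) - 1) (r J I) (dd I J) * χ.χ (TT0 (V0 f ∅ J))
        + (-1) ^ r J I * ((L : R) - 1) ^ (dd I J - r J I - dd (core J I) J)
          * Y1w χ f J (core J I)) * cs (Li L) f.support I J m m
      + (PP ((L : R) - 1) (r J I) (dd I J) * χ.χ (TT0 (V0 f ∅ J))
        + (-1) ^ r J I * ((L : R) - 1) ^ (dd I J - r J I - dd (core J I) J)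
          * χ.χ (TT0 (V0 f (core J I) J)))
        * ∑ l ∈ range m, Li L ^ (m - l) * cs (Li L) f.support I J l l) := ⟨_, rfl⟩
  have hRP : RP L (steps ((slopes f.support ∪ {1}) \ B)) T := by
    rw [hTdef]
    exact RP.sum _ fun J _ => hgood J
  refine ⟨fun m => if m = 0 then 0 else T m, by simp, ?_, ?_⟩
  · refine RP.of_shift 1 ((hRP.shift 1).congr fun m => ?_)
    rw [if_neg (Nat.succ_ne_zero m)]
  · intro m hm hω
    simp only [if_neg hm]
    rw [hS k σ R L χ f m hm _ hω, Finset.mul_sum]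
    simp only [H15.key χ f h1 h2 h3 hN hY hf hsi hnd m hm hω]
    rw [Finset.sum_comm, Finset.sum_congr rfl fun t _ => H15.sum_gt χ f hT m t,
      Finset.sum_product, Finset.sum_comm, hTdef]
    refine Finset.sum_congr rfl fun J _ => Finset.sum_congr rfl fun I hI => ?_
    have hIM : I ⊆ f.support := Finset.mem_powerset.1 hI
    simp only [coneSum_eq_cs]
    congr 1
    · by_cases hex : ∃ u : σ → ℕ, CellS f.support I J u m
      · obtain ⟨u, hu⟩ := hex
        have hex' : ∃ (u₀ : σ → ℕ) (N₀ : ℕ), CellS f.support (I, J).1 (I, J).2 u₀ N₀ ∧ N₀ ≠ 0 :=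
          ⟨u, m, hu, hm⟩
        have e1 : H15.Y1 χ f (I, J) = χ.χ (TT1 (V1 hex'.choose_spec.choose_spec.1
            hex'.choose_spec.choose_spec.2) rfl) := by
          unfold H15.Y1
          rw [dif_pos hex']
        have e2 : ∀ (u₀ : σ → ℕ) (N₀ : ℕ) (h : CellS f.support I J u₀ N₀) (hN₀ : N₀ ≠ 0),
            χ.χ (TT1 (V1 h hN₀) rfl) = PP ((L : R) - 1) (r J I) (dd I J) * χ.χ (TT0 (V0 f ∅ J))
              + (-1) ^ r J I * ((L : R) - 1) ^ (dd I J - r J I - dd (core J I) J)
                * Y1w χ f J (core J I) := by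
          intro u₀ N₀ h hN₀
          have hw : ∀ α ∈ I, ∑ i, ((u₀ i : ℚ) / N₀) * (α i : ℚ) = 1 := by
            intro α hα
            have h5 := h.eq α hα
            rw [dot_nat] at h5
            have h6 : (N₀ : ℚ) ≠ 0 := by exact_mod_cast hN₀
            have h7 : ∑ i, ((u₀ i : ℚ) / N₀) * (α i : ℚ)
                = (∑ i, (u₀ i : ℚ) * (α i : ℚ)) / N₀ := by
              rw [Finset.sum_div]
              exact Finset.sum_congr rfl fun i _ => by ring
            have h8 : (∑ i, (u₀ i : ℚ) * (α i : ℚ)) = N₀ := by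
              rw [← h5]
              push_cast
              rfl
            rw [h7, h8, div_self h6]
          have hJ : ∀ i ∈ J, (u₀ i : ℚ) / N₀ = 0 := by
            intro i hi
            rw [(h.zero i).2 hi]
            simp
          rw [← form1 hcls χ f (hc J) (fun i => (u₀ i : ℚ) / N₀) hJ I hIM hw,
            Y1w_eq hcls χ f J I (fun i => (u₀ i : ℚ) / N₀) hw hJ]
        rw [e1, e2]
      · have h5 : cs (Li L) f.support I J m m = 0 := by
          unfold cs
          refine Finset.sum_eq_zero fun u _ => ?_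
          rw [if_neg]
          exact fun h => hex ⟨_, h⟩
        rw [h5, mul_zero, mul_zero]
    · have h5 : H15.Y0 χ f (I, J) = PP ((L : R) - 1) (r J I) (dd I J) * χ.χ (TT0 (V0 f ∅ J))
        + (-1) ^ r J I * ((L : R) - 1) ^ (dd I J - r J I - dd (core J I) J)
          * χ.χ (TT0 (V0 f (core J I) J)) := form0 hcls χ f (hc J) I hIM
      rw [h5]
      congr 1
      rw [Finset.Nat.sum_antidiagonal_eq_sum_range_succ_mk, Finset.sum_range_succ]
      simp only [Nat.sub_self, if_true, mul_zero, add_zero]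
      refine Finset.sum_congr rfl fun l hl => ?_
      have hl' := Finset.mem_range.1 hl
      rw [if_neg (by omega : ¬ m - l = 0), Units.val_pow_eq_pow_val, mul_comm]

end Pool.Agent.Helper30_Simp2.H63
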